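import Mathlib

/-!
# Project LE (MP_2f9829_co): the list edge-colouring conjecture for graphs of maximum degree
`D ≥ C · degeneracy`, `D ≥ C · log n`

Idea.  Fix a degeneracy order; `u` is a *parent* of its later neighbours (*children*), every vertex has
at most `d` parents.  The *star* of `u` (edges to its children) is coloured when all earlier stars are
coloured: we need an injective choice from `(L (uv) \ C) \ T v`, `C` = colours of the (at most `d`)
edges from `u` to its parents, `T v` = colours of the edges from `v` to its earlier parents.  We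
choose it at random from a `3/N`-spread distribution (`N` of order `D`), and an exponential
potential (method of conditional expectations) keeps the sets `T v` good for all later stars.

All modules: `theorem t_xxx (h : S_yyy) ... : S_xxx` with the statements `S_xxx` below, file
`Pool/Agent/<Hxx>/LE/Xxx.lean`, `import Pool.Agent.H81.LE.Stm`.
-/

namespace Pool.Agent.H81.LE

open Finset

/-- `M` is the graph of an injective function on `S` with values in the sets `A v`. -/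
structure IsStar {V : Type} (S : Finset V) (A : V → Finset ℕ) (M : Finset (V × ℕ)) : Prop where
  mem : ∀ x ∈ M, x.1 ∈ S ∧ x.2 ∈ A x.1
  cover : ∀ v ∈ S, ∃ c, (v, c) ∈ M
  row : ∀ x ∈ M, ∀ y ∈ M, x.1 = y.1 → x = y
  col : ∀ x ∈ M, ∀ y ∈ M, x.2 = y.2 → x = y

/-- There is a probability measure `μ` on the finite sets with the property `P`
(with finite support `s`) such that `μ {M | J ⊆ M} ≤ θ ^ |J|` for all `J`. -/
def Spread {E : Type} [DecidableEq E] (θ : ℝ) (P : Finset E → Prop) : Prop :=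
  ∃ (s : Finset (Finset E)) (μ : Finset E → ℝ), (∀ M ∈ s, P M ∧ 0 ≤ μ M) ∧ ∑ M ∈ s, μ M = 1 ∧
    ∀ J : Finset E, ∑ M ∈ s.filter (fun M => J ⊆ M), μ M ≤ θ ^ J.card

theorem Spread.mono {E : Type} [DecidableEq E] {θ θ' : ℝ} {P Q : Finset E → Prop} (h : Spread θ P)
    (h0 : 0 ≤ θ) (h1 : θ ≤ θ') (h2 : ∀ M, P M → Q M) : Spread θ' Q := by
  obtain ⟨s, μ, a, b, c⟩ := h
  exact ⟨s, μ, fun M hM => ⟨h2 M (a M hM).1, (a M hM).2⟩, b,
    fun J => (c J).trans (pow_le_pow_left₀ h0 h1 _)⟩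

/-- **Composition.**  `J ⊆ M ∪ M'` gives `J₁ ⊆ M`, `J \ J₁ ⊆ M'` with `J₁ = J ∩ M`; sum over `J₁ ⊆ J`:
`∑ θ₁ ^ |J₁| θ₂ ^ |J \ J₁| = (θ₁ + θ₂) ^ |J|` (`Finset.prod_add` / `Finset.sum_pow_mul_eq_add_pow`). The
new measure is the push-forward of `μ₁ M · μ₂^M M'` (choose the data for each `M` with `Classical.choose`)
to the unions (sum over the fibres). -/
def S_comp : Prop := ∀ (E : Type) [DecidableEq E] (θ₁ θ₂ : ℝ) (P : Finset E → Prop)
  (Q : Finset E → Finset E → Prop), 0 ≤ θ₁ → 0 ≤ θ₂ → Spread θ₁ P → (∀ M, P M → Spread θ₂ (Q M)) →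
  Spread (θ₁ + θ₂) (fun K => ∃ M M', P M ∧ Q M M' ∧ K = M ∪ M')

/-- **Composition with disjoint rows.**  As `S_comp`, but the elements of the `M` satisfy `R` and
those of the `M'` do not: then `J ⊆ M ∪ M'` iff `J.filter R ⊆ M` and `J.filter ¬R ⊆ M'`, and the
spread stays `θ`. -/
def S_rows : Prop := ∀ (E : Type) [DecidableEq E] (θ : ℝ) (R : E → Prop) (P : Finset E → Prop)
  (Q : Finset E → Finset E → Prop), 0 ≤ θ → (∀ M, P M → ∀ x ∈ M, R x) →
  (∀ M M', P M → Q M M' → ∀ x ∈ M', ¬ R x) → Spread θ P → (∀ M, P M → Spread θ (Q M)) →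
  Spread θ (fun K => ∃ M M', P M ∧ Q M M' ∧ K = M ∪ M')

/-- **Random greedy.**  Induction on `X` (`Finset.induction_on`) with `S_rows`: for `insert v X` take
`P = IsStar X A` (rows `≠ v`) and then `M' = {(v, c)}`, `c` uniform in `A v \ M.image Prod.snd`,
a set of at least `N` colours. -/
def S_greedy : Prop := ∀ (V : Type) [DecidableEq V] (N : ℕ) (X : Finset V) (A : V → Finset ℕ), 0 < N →
  (∀ v ∈ X, N + X.card ≤ (A v).card) → Spread (1 / (N : ℝ)) (IsStar X A)

/-- **Random matching of size `k` in a set of pairs.**  Choose the pairs one after the other,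
each one uniformly among the pairs of `H` whose row and column are not used yet: at every step at
least `k (r + c + N) - i (r + c) ≥ k N` pairs are available (`i < k` steps done). Claim by induction on
`i`: the measure of `{J ⊆ Mᵢ}` is at most `(i / (k N)) ^ |J|`, because
`(i q)^j + j q (i q)^(j-1) ≤ ((i+1) q)^j`.  (`k = 0`: `M = ∅`.) -/
def S_picks : Prop := ∀ (V : Type) [DecidableEq V] (H : Finset (V × ℕ)) (k r c N : ℕ), 0 < N →
  k * (r + c + N) ≤ H.card → (∀ v, (H.filter (fun x => x.1 = v)).card ≤ r) →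
  (∀ y, (H.filter (fun x => x.2 = y)).card ≤ c) →
  Spread (1 / (N : ℝ)) (fun M => M ⊆ H ∧ M.card = k ∧ (∀ x ∈ M, ∀ y ∈ M, x.1 = y.1 → x = y) ∧
    (∀ x ∈ M, ∀ y ∈ M, x.2 = y.2 → x = y))

/-- The numerical estimate for `S_ncm`.  With `C(x,a) ≤ x^a / a! ≤ (e x / a)^a` and
`C(x,a-1) ≤ (e x/(a-1))^(a-1) ≤ (e x/(a-1))^a` every term with `a ≥ 2` is at most
`(9 / 0.98^8 · ((a-1)/x)^6)^a ≤ (0.17)^a` (as `(a-1)/x ≤ 1/2`; `a = 1`: the term is `0`). -/
def S_sum : Prop := ∀ x : ℕ, ∑ a ∈ (Finset.Icc 1 x).filter (fun a => 2 * (a - 1) ≤ x),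
  (x.choose a : ℝ) * (x.choose (a - 1) : ℝ) * ((((a - 1 : ℕ) : ℝ)) / (49 / 50 * x)) ^ (8 * a) ≤ 1 / 10

/-- **Uniform picks.**  `Ω` = all choices of 8 elements (with repetition) from every `B i`.  (The
`Ω.card` is a product `∏ i, |B i|^8`; the first set has at most `∏_{i ∈ I} 8 |B i|^7 ∏_{i ∉ I} |B i|^8`
elements, the second at most `∏_{i ∈ I} |B i ∩ U|^8 ∏_{i ∉ I} |B i|^8`.) -/
def S_uni : Prop := ∀ (ι κ : Type) [Fintype ι] [DecidableEq ι] [DecidableEq κ] (B : ι → Finset κ)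
  (b : ℝ), 0 < b → (∀ i, b ≤ ((B i).card : ℝ)) →
  0 < (Fintype.piFinset (fun i => Fintype.piFinset (fun _ : Fin 8 => B i))).card ∧
  (∀ (I : Finset ι) (t : ι → κ),
    (((Fintype.piFinset (fun i => Fintype.piFinset (fun _ : Fin 8 => B i))).filter
      (fun f => ∀ i ∈ I, ∃ j, f i j = t i)).card : ℝ) ≤
      (8 / b) ^ I.card * (Fintype.piFinset (fun i => Fintype.piFinset (fun _ : Fin 8 => B i))).card) ∧
  (∀ (I : Finset ι) (U : Finset κ),
    (((Fintype.piFinset (fun i => Fintype.piFinset (fun _ : Fin 8 => B i))).filter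
      (fun f => ∀ i ∈ I, ∀ j, f i j ∈ U)).card : ℝ) ≤
      ((U.card : ℝ) / b) ^ (8 * I.card) *
        (Fintype.piFinset (fun i => Fintype.piFinset (fun _ : Fin 8 => B i))).card)

/-- **Hall.**  From `Finset.all_card_le_biUnion_card_iff_exists_injective` (on the subtype of `X`): if the
condition fails for `A'`, enlarge the neighbourhood of `A'` inside `Y` to `|A'| - 1` elements. -/
def S_hall : Prop := ∀ (V : Type) [DecidableEq V] (X : Finset V) (Y : Finset ℕ)
  (O : Finset (V × ℕ)), Y.card = X.card → (∀ x ∈ O, x.1 ∈ X ∧ x.2 ∈ Y) →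
  (∃ M ⊆ O, IsStar X (fun _ => Y) M) ∨
    ∃ A' ⊆ X, ∃ U ⊆ Y, U.card + 1 = A'.card ∧ ∀ x ∈ O, x.1 ∈ A' → x.2 ∈ U

/-- **Nearly complete bipartite graphs have spread perfect matchings.**  `x = |X| = |Y|`. Every
`v ∈ X` picks 8 colours of `Y ∩ A v` (uniformly, with repetition), every `c ∈ Y` picks 8 elements of
`{v ∈ X | c ∈ A v}`; all these sets have at least `49/50 x` elements.  Let `O` be the set of the pairs
`(v, c)` such that `v` picked `c` or `c` picked `v`.
Prove `t_ncm (h1 : S_sum) (h2 : S_uni) (h3 : S_hall) : S_ncm`.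
*Hall:* if `O` contains no perfect matching (`S_hall`), there are `A' ⊆ X`, `U ⊆ Y`, `|U| = |A'| - 1` such that all picks of `v ∈ A'` are in `U` and all
picks of the `c ∈ Y \ U` are in `X \ A'`.  If `a = |A'|` satisfies `2 (a - 1) ≤ x` use the picks of
`A'`: probability at most `((a-1)/(49/50 x))^(8a)`; otherwise `a' = x - a + 1 = |Y \ U|`,
`|X \ A'| = a' - 1`, `2 (a'-1) ≤ x`, use the picks of the `c ∈ Y \ U`. So by `S_sum` the failure
probability is at most `2/10`.  *Spread:* for a set `J` of pairs with distinct rows and distinct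
columns, `P(J ⊆ O) ≤ (8/(49/50 x) + 8/(49/50 x))^|J|` (expand over which pairs come from row
picks; rows and columns pick independently); choose for every good `O` one perfect matching
`M_O ⊆ O` and normalise by the probability of success `≥ 8/10`.  The measure can be written as a
normalised counting measure on a finite product (`Fintype.piFinset`) or with `∏`-weights. -/
def S_ncm : Prop := ∀ (V : Type) [DecidableEq V] (X : Finset V) (Y : Finset ℕ) (A : V → Finset ℕ),
  Y.card = X.card → (∀ v ∈ X, 50 * (Y \ A v).card ≤ X.card) →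
  (∀ c ∈ Y, 50 * (X.filter (fun v => c ∉ A v)).card ≤ X.card) →
  Spread (100 / (X.card : ℝ)) (IsStar X (fun v => A v ∩ Y))

/-! ### The star lemma -/

/-- The colours which are in at least `0.99 D` of the lists. -/
def popular {V : Type} [DecidableEq V] (S : Finset V) (L : V → Finset ℕ) (D : ℕ) : Finset ℕ :=
  (S.biUnion L).filter (fun c => 99 * D ≤ 100 * (S.filter (fun v => c ∈ L v)).card)

/-- The pairs `(v, c)`, `v ∈ A`, `c ∈ L v` not popular and not in `K`. -/
def Fam {V : Type} [DecidableEq V] (S : Finset V) (L : V → Finset ℕ) (D : ℕ) (A : Finset V)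
    (K : Finset ℕ) : Finset (V × ℕ) :=
  (A ×ˢ S.biUnion L).filter (fun x => x.2 ∈ L x.1 ∧ x.2 ∉ popular S L D ∧ x.2 ∉ K)

/-- The pairs `(v, c)` with `c ∈ L v`. -/
def Col {V : Type} [DecidableEq V] (S : Finset V) (L : V → Finset ℕ) (c : ℕ) : Finset (V × ℕ) :=
  (S.filter (fun v => c ∈ L v)).image (fun v => (v, c))

/-- The static family of sets of pairs. -/
def family {V : Type} [DecidableEq V] (S : Finset V) (L : V → Finset ℕ) (D : ℕ) :
    Finset (Finset (V × ℕ)) :=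
  (((S.powerset ×ˢ (S.biUnion L).powerset).filter (fun q =>
    D * (1 + (S \ q.1).card + q.2.card) ≤ 200 * (Fam S L D q.1 q.2).card)).image
      (fun q => Fam S L D q.1 q.2)) ∪ (popular S L D).image (Col S L)

/-- At most one thousandth of every set of the family is blocked (`c ∈ T v`). -/
def Good {V : Type} [DecidableEq V] (S : Finset V) (L T : V → Finset ℕ) (D : ℕ) : Prop :=
  ∀ F ∈ family S L D, 1000 * (F.filter (fun x => x.2 ∈ T x.1)).card ≤ F.card

/-- **Case 1** (many children with many unpopular colours).  `m = |S|`.  `R₁` = `D / 8000` (natural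
division) of the children `v` with `D ≤ 1000 |(L v \ popular) \ C|`.
Step 1 (`S_greedy`): star `M₁` on `R₁` from `((L v \ popular) \ C) \ T v` (at least
`D/1000 - N ≥ N + |R₁|` colours). Let `U₁` be its colours, `b(w) = |U₁ \ L w|`. Every `c ∈ U₁` is not
popular, so it is missing from at least `m - 0.99 D ≥ 0.01 D - 3 N ≥ 0.005 D` of the lists `L w`, `w ∈ S`.
So `∑ b(w) ≥ 0.005 D |R₁|`, hence `400 b(w) ≥ |R₁|` for at least `0.0025 D` of the `w ∈ S`; let `R₂` be
those of them outside `R₁`: `|R₂| ≥ 0.002 D`.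
Step 2 (`S_greedy`): `O = S \ (R₁ ∪ R₂)`, colours from `((L v \ C) \ T v) \ U₁`: at least
`D - |C| - N - |R₁| ≥ m - N - |R₁| = |O| + |R₂| - N ≥ |O| + N`.
Step 3 (`S_greedy`): `R₂`, colours from `(((L w \ C) \ T w) \ U₁) \ U₂`, `U₂` = colours of step 2: at
least `D - |C| - N - (|R₁| - b(w)) - |O| ≥ |R₂| + b(w) - N ≥ |R₂| + N`, as
`b(w) ≥ (D/8000)/400 ≥ 2 N`.
Compose with `S_rows` twice (rows of step 1: `R₁`; rows of steps 2, 3: outside `R₁`; inside the second
part, for fixed `M₁`, rows `O` and then `R₂`). -/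
def S_case1 : Prop := ∀ (V : Type) [DecidableEq V] (S : Finset V) (L T : V → Finset ℕ)
  (C : Finset ℕ) (D N : ℕ), 1 ≤ N → 100000000 * N ≤ D → (∀ v ∈ S, (L v).card = D) →
  (∀ v ∈ S, (T v).card ≤ N) → C.card ≤ N → S.card + C.card ≤ D → D ≤ S.card + 3 * N →
  D / 8000 ≤ (S.filter (fun v => D ≤ 1000 * ((L v \ popular S L D) \ C).card)).card →
  Spread (1 / (N : ℝ)) (IsStar S (fun v => (L v \ C) \ T v))

/-- **Case 2** (few children with many unpopular colours).  Notation: `m = |S|`, `p = |C|`,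
`VP = popular \ C`, `rare v = (L v \ popular) \ C`, `Sₜ = {v ∈ S | 1000 |rare v| < 3 D}`, `Sₗ` the other
children, `l = |Sₗ| < D / 8000` (they satisfy `D ≤ 1000 |rare v|`).
* `∑_{c popular} deg c ≤ ∑_{v ∈ S} |L v| = m D`, so `99 |popular| ≤ 100 m`. Some `v ∈ S` has
  `1000 |rare v| < D`, and `D - p ≤ |L v \ C| ≤ |VP| + |rare v|`, so `m - |VP| ≤ D / 1000`.
* `k := (m - l) - |VP|` (natural subtraction), `k ≤ D / 1000`.
* Step 1 (`S_picks`): `H = {(v,c) | v ∈ Sₜ, c ∈ rare v, c ∉ T v}`, a random matching of size `k`. For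
  `k ≥ 1`: `F = Fam S L D Sₜ (C ∩ (S.biUnion L \ popular))` `= {(v,c) | v ∈ Sₜ, c ∈ rare v}`, `δ = m - |VP| = l + k`,
  `κ = |C \ popular|`, `a = |Sₜ|`:  `|F| = ∑_{v∈Sₜ} |L v| - ∑_{c ∈ popular ∪ C} deg_{Sₜ} c ≥
  a D - |popular| a - κ · 0.99 D = a δ + κ (a - 0.99 D)` + `a (D - m - p)`, with `|popular| = |VP| + p - κ`
  (p - κ = |C ∩ popular|); `a ≥ 0.995 D`, so `200 |F| ≥ D (1 + l + κ)` and `F ∈ family`; by `Good`
  `|H| ≥ 0.999 |F| ≥ 0.999 a δ ≥ k (3 D/1000 + 99 D/100 + N)`. Rows of `H`: at most `3 D / 1000`;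
  columns: at most `99 D / 100` (not popular).
* Step 2 (`S_greedy`): star on `Sₗ` from `(rare v \ T v) \ (colours of step 1)`: at least
  `3 D/1000 - N - k ≥ N + l` colours.
* Step 3 (`S_ncm`): `X = Sₜ \ (rows of step 1)`, `|X| = m - l - k ≤ |VP|`, take `Y ⊆ VP` with
  `|Y| = |X|` (`Finset.exists_subset_card_eq`); `|X| ≥ 0.998 D`. For `v ∈ X`: `|Y \ ((L v \ C) \ T v)| ≤ |VP| - |VP ∩ L v| + N
  ≤ 100 m/99 - (D - p - 3 D/1000) + N ≤ 0.0133 D ≤ |X|/50`. For `c ∈ Y`: the number of `v ∈ X` with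
  `c ∉ (L v \ C) \ T v` is at most `(m - 0.99 D) + |Col S L c|/1000 ≤ 0.011 D + 1 ≤ |X| / 50`.
The three stars use different rows and colours (`rare` minus used; `VP`).  Compose with `S_comp`
twice: `1/N + (1/N + 100/|X|) ≤ 3/N`. -/
def S_case2 : Prop := ∀ (V : Type) [DecidableEq V] (S : Finset V) (L T : V → Finset ℕ)
  (C : Finset ℕ) (D N : ℕ), 1 ≤ N → 100000000 * N ≤ D → (∀ v ∈ S, (L v).card = D) →
  (∀ v ∈ S, (T v).card ≤ N) → C.card ≤ N → S.card + C.card ≤ D → D ≤ S.card + 3 * N →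
  (S.filter (fun v => D ≤ 1000 * ((L v \ popular S L D) \ C).card)).card < D / 8000 →
  Good S L T D → Spread (3 / (N : ℝ)) (IsStar S (fun v => (L v \ C) \ T v))

/-- **Star lemma**: `S_case1`, `S_case2`, and `S_greedy` if `S.card + 3 N ≤ D`. -/
def S_star : Prop := ∀ (V : Type) [DecidableEq V] (S : Finset V) (L T : V → Finset ℕ)
  (C : Finset ℕ) (D N : ℕ), 1 ≤ N → 100000000 * N ≤ D → (∀ v ∈ S, (L v).card = D) →
  (∀ v ∈ S, (T v).card ≤ N) → C.card ≤ N → S.card + C.card ≤ D →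
  (D ≤ S.card + 3 * N → Good S L T D) →
  Spread (3 / (N : ℝ)) (IsStar S (fun v => (L v \ C) \ T v))

/-! ### The potential -/

/-- **Potential step.**  `∑_M μ M · y ^ |F ∩ M| = ∑_M μ M ∏_{x ∈ F} (1 + (y-1) 1[x ∈ M]) =
∑_{J ⊆ F} (y-1)^|J| μ{J ⊆ M} ≤ (1 + (y-1) θ)^|F|`; so the average over `M` of the left-hand side is at
most the right-hand side, and some `M` in the support is at most the average. -/
def S_pot : Prop := ∀ (E : Type) [DecidableEq E] (θ y : ℝ) (P : Finset E → Prop) (I : Type)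
  (s : Finset I) (a : I → ℝ) (F : I → Finset E), 0 ≤ θ → 1 ≤ y → Spread θ P → (∀ i ∈ s, 0 ≤ a i) →
  ∃ M, P M ∧ ∑ i ∈ s, a i * y ^ (F i ∩ M).card ≤ ∑ i ∈ s, a i * (1 + (y - 1) * θ) ^ (F i).card

/-- **Counting the family.**  `x = exp (-D/200)`: the first part contributes at most
`∑_{A,K} exp (-D (1 + |S \ A| + |K|)/200) ≤ x (1 + x)^|S| (1 + x)^|palette| ≤ x exp (2 D² x)`, the
second at most `2 D exp (-0.99 D)` (at most `2 D` popular colours). `Real.pow_div_factorial_le_exp`. -/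
def S_count : Prop := ∀ (V : Type) [DecidableEq V] (S : Finset V) (L : V → Finset ℕ) (D : ℕ),
  100000000 ≤ D → (∀ v ∈ S, (L v).card = D) → S.card ≤ D →
  ∑ F ∈ family S L D, Real.exp (-(F.card : ℝ)) ≤ Real.exp (-(D : ℝ) / 400)

/-- children of `u` -/
def kids {V : Type} [Fintype V] (G : SimpleGraph V) [DecidableRel G.Adj] (r : V → ℕ) (u : V) :
    Finset V := univ.filter (fun v => G.Adj u v ∧ r u < r v)

/-- parents of `v` -/
def pars {V : Type} [Fintype V] (G : SimpleGraph V) [DecidableRel G.Adj] (r : V → ℕ) (v : V) :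
    Finset V := univ.filter (fun u => G.Adj u v ∧ r u < r v)

/-- **The induction.**  Process the vertices in the order of `r` (injective). State after the
vertices of rank `< t`: `g u v` for `r u < t`, `v` a child of `u`. `T v` = `{g u v | u ∈ pars v, r u < t}`.
`y = exp 2000`, `θ = 3 / N`, so `y θ d ≤ 1`.  Potential
`Φ = ∑_{u : t ≤ r u, D ≤ |kids u| + 3 N} ∑_{F ∈ family (kids u) (L u) D} exp (-2 |F|) ·
∏_{x ∈ F} ((if x.2 ∈ T x.1 then y else 1) · exp (y θ · #{parents of x.1 of rank ≥ t}))`.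
`Φ₀ ≤ ∑_u ∑_F exp (-|F|) < 1` (`S_count`, hypothesis).  Step for the vertex `u` with `r u = t`: `Φ < 1`
gives for `F ∈ family (kids u) (L u) D`: `exp (-2|F|) y^(number blocked) < 1`, so
`2000 · #blocked < 2 |F|`, i.e. `Good`; `S_star` with `S = kids u`, `C = T u` (all parents of `u` are processed,
`|C| ≤ d ≤ N`), `|T v| ≤ d ≤ N`; `S_pot` with `a` = (term of `Φ`) · `exp (-y θ |F'|)`,
`F' = F.filter (x.1 ∈ kids u)` (parents of rank `≥ t` decrease by one exactly for the `x.1 ∈ kids u`), and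
`(1 + (y-1) θ)^|F'| ≤ exp (y θ |F'|)`: there is a star `M` with `Φ_{t+1} ≤ Φ_t`; put `g u v = c` for
`(v, c) ∈ M`.  (If no vertex has rank `t`, nothing changes.) -/
def S_main : Prop := ∀ (V : Type) [Fintype V] [DecidableEq V] (G : SimpleGraph V)
  [DecidableRel G.Adj] (r : V → ℕ) (L : V → V → Finset ℕ) (D N d : ℕ), Function.Injective r →
  1 ≤ N → 100000000 * N ≤ D → d ≤ N → 3 * Real.exp 2000 * d ≤ N →
  (∀ u, ∀ v ∈ kids G r u, (L u v).card = D) → (∀ u, (kids G r u).card + (pars G r u).card ≤ D) →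
  (∀ u, (pars G r u).card ≤ d) →
  ((univ.filter (fun u => D ≤ (kids G r u).card + 3 * N)).card : ℝ) * Real.exp (-(D : ℝ) / 400) < 1 →
  ∃ g : V → V → ℕ, (∀ u, ∀ v ∈ kids G r u, g u v ∈ L u v) ∧
    (∀ u, ∀ v ∈ kids G r u, ∀ w ∈ kids G r u, g u v = g u w → v = w) ∧
    (∀ v, ∀ u ∈ pars G r v, ∀ w ∈ pars G r v, g u v = g w v → u = w) ∧
    (∀ u, ∀ w ∈ pars G r u, ∀ v ∈ kids G r u, g w u ≠ g u v)

/-- **Degeneracy order.** Induction on `|X|` for the subsets `X` of `V` (ranks `0, …, |X| - 1` on `X`): the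
vertex of `X` with at most `d` neighbours in `X` gets the largest rank. -/
def S_order : Prop := ∀ (V : Type) [Fintype V] (G : SimpleGraph V) [DecidableRel G.Adj] (d : ℕ),
  (∀ X : Finset V, X.Nonempty → ∃ v ∈ X, {w | w ∈ X ∧ G.Adj v w}.ncard ≤ d) →
  ∃ r : V → ℕ, Function.Injective r ∧ ∀ v, (pars G r v).card ≤ d

/-- The edges of `G` can be properly coloured from all lists of at least `k` colours. -/
def EdgeChoosable {V : Type} (G : SimpleGraph V) (k : ℕ) : Prop :=
  ∀ L : G.edgeSet → Finset ℕ, (∀ e, k ≤ (L e).card) →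
    ∃ f : G.edgeSet → ℕ, (∀ e, f e ∈ L e) ∧ ∀ e e', G.lineGraph.Adj e e' → f e ≠ f e'

/-- **The theorem.** -/
def S_final : Prop := ∃ C : ℝ, ∀ (V : Type) [Fintype V] (G : SimpleGraph V) (D d : ℕ),
  (∀ v, (G.neighborSet v).ncard ≤ D) →
  (∀ X : Finset V, X.Nonempty → ∃ v ∈ X, {w | w ∈ X ∧ G.Adj v w}.ncard ≤ d) →
  C * d ≤ D → C * Real.log ({v | D ≤ 2 * (G.neighborSet v).ncard}.ncard) ≤ D →
  EdgeChoosable G D ∧ ((∃ v, (G.neighborSet v).ncard = D) →
    ∀ k : ℕ, G.lineGraph.Colorable k ↔ EdgeChoosable G k)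

end Pool.Agent.H81.LE
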