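import Pool.Agent.H81.LE.StmThree

namespace Pool.Agent.H81.LE

open Finset

theorem listCol_of_no_edges {V : Type} {G : SimpleGraph V} (h : ∀ u v, ¬ G.Adj u v)
    (L : Sym2 V → Finset ℕ) : ListCol G L := by
  refine ⟨fun _ => 0, ?_, fun u v _ huv => absurd huv (h u v)⟩
  intro e he
  induction e using Sym2.ind with
  | h a b => exact absurd he (h a b)

open Classical in
theorem t_core (hmain : S_mainL) (horder : S_order) : S_core := by
  have hE : (1 : ℝ) ≤ Real.exp 2000 := Real.one_le_exp (by norm_num)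
  refine ⟨1000000000 * Real.exp 2000, by nlinarith, ?_⟩
  intro V _ H L d hdegen hL
  by_cases hemp : ∀ u v, ¬ H.Adj u v
  · exact listCol_of_no_edges hemp L
  push Not at hemp
  obtain ⟨u0, v0, h0⟩ := hemp
  have hd1 : 1 ≤ d := by
    by_contra hd0
    obtain ⟨v, hv, hv'⟩ := hdegen {u0, v0} ⟨u0, by simp⟩
    have h1 : {w | w ∈ ({u0, v0} : Finset V) ∧ H.Adj v w}.ncard = 0 := by omega
    rw [Set.ncard_eq_zero (Set.toFinite _)] at h1
    have h2 : ∀ w, ¬ (w ∈ ({u0, v0} : Finset V) ∧ H.Adj v w) := fun w hw => by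
      have : w ∈ {w | w ∈ ({u0, v0} : Finset V) ∧ H.Adj v w} := hw
      rw [h1] at this
      exact this
    simp only [mem_insert, mem_singleton] at hv
    rcases hv with rfl | rfl
    · exact h2 v0 ⟨by simp, h0⟩
    · exact h2 u0 ⟨by simp, h0.symm⟩
  have hd1' : (1 : ℝ) ≤ d := by exact_mod_cast hd1
  -- the smallest list
  obtain ⟨e0, he0, hmin⟩ := Finset.exists_min_image (H.edgeFinset) (fun e => (L e).card)
    ⟨s(u0, v0), by simpa using h0⟩
  obtain ⟨D0, hD0⟩ : ∃ D0 : ℕ, D0 = (L e0).card := ⟨_, rfl⟩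
  have hmin' : ∀ u v, H.Adj u v → D0 ≤ (L s(u, v)).card := fun u v h => by
    rw [hD0]
    exact hmin s(u, v) (by simpa using h)
  obtain ⟨a0, b0, hab0, hD0'⟩ : ∃ a b, H.Adj a b ∧ D0 = (L s(a, b)).card := by
    induction e0 using Sym2.ind with
    | h a b => exact ⟨a, b, by simpa using he0, hD0⟩
  have hCd := (hL a0 b0 hab0).2.1
  have hClog := (hL a0 b0 hab0).2.2
  rw [← hD0'] at hCd hClog
  have hCd1 : 1000000000 * Real.exp 2000 ≤ D0 := by
    refine le_trans ?_ hCd
    nlinarith [Real.exp_pos 2000]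
  have hDbig : (1000000000 : ℝ) ≤ D0 := by nlinarith
  have hDbig' : 1000000000 ≤ D0 := by exact_mod_cast hDbig
  obtain ⟨r, hr, hpar⟩ := horder V H d hdegen
  -- the numbers `D u` and the lists
  let D : V → ℕ := fun u => max (H.neighborSet u).ncard D0
  have hD : ∀ u v, H.Adj u v → D u ≤ (L s(u, v)).card := fun u v h =>
    max_le (hL u v h).1 (hmin' u v h)
  have hsubex : ∀ u v, ∃ K : Finset ℕ, H.Adj u v → K ⊆ L s(u, v) ∧ K.card = D u := by
    intro u v
    by_cases h : H.Adj u v
    · obtain ⟨K, h1, h2⟩ := Finset.exists_subset_card_eq (hD u v h)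
      exact ⟨K, fun _ => ⟨h1, h2⟩⟩
    · exact ⟨∅, fun h' => absurd h' h⟩
  choose K hK using hsubex
  have hadjk : ∀ u, ∀ v ∈ kids H r u, H.Adj u v := by
    intro u v hv
    simp only [kids, mem_filter] at hv
    exact hv.2.1
  have hN1 : 1 ≤ D0 / 100000000 := by omega
  have hN2 : ∀ u, 100000000 * (D0 / 100000000) ≤ D u := fun u => by
    have : D0 ≤ D u := le_max_right _ _
    omega
  have hN3 : (D0 : ℝ) ≤ 200000000 * ((D0 / 100000000 : ℕ) : ℝ) := by
    have : D0 ≤ 200000000 * (D0 / 100000000) := by omega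
    exact_mod_cast this
  have hkey : 3 * Real.exp 2000 * d ≤ ((D0 / 100000000 : ℕ) : ℝ) := by nlinarith
  have hdN : d ≤ D0 / 100000000 := by
    have : (d : ℝ) ≤ ((D0 / 100000000 : ℕ) : ℝ) := by nlinarith
    exact_mod_cast this
  have hsum : ∀ u, (kids H r u).card + (pars H r u).card ≤ D u := by
    intro u
    refine le_trans ?_ (le_max_left _ _)
    rw [← Finset.card_union_of_disjoint]
    · have hsub : ((kids H r u ∪ pars H r u : Finset V) : Set V) ⊆ H.neighborSet u := by
        intro v hv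
        simp only [coe_union, Set.mem_union, mem_coe, kids, pars, mem_filter, mem_univ,
          true_and] at hv
        rcases hv with h | h
        · exact h.1
        · exact h.1.symm
      have := Set.ncard_le_ncard hsub (Set.toFinite _)
      rwa [Set.ncard_coe_finset] at this
    · rw [Finset.disjoint_left]
      intro v hv hv'
      simp only [kids, pars, mem_filter] at hv hv'
      omega
  have hcount : (∑ u ∈ univ.filter (fun u => D u ≤ (kids H r u).card +
      3 * (D0 / 100000000)), Real.exp (-(D u : ℝ) / 400)) < 1 := by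
    have hsub : ((univ.filter (fun u => D u ≤ (kids H r u).card +
        3 * (D0 / 100000000)) : Finset V) : Set V) ⊆ {w | ∃ x, H.Adj w x} := by
      intro u hu
      simp only [coe_filter, mem_univ, true_and, Set.mem_ofPred_eq] at hu ⊢
      have h1 : D0 ≤ D u := le_max_right _ _
      have h2 : 0 < (kids H r u).card := by omega
      obtain ⟨x, hx⟩ := Finset.card_pos.mp h2
      exact ⟨x, hadjk u x hx⟩
    set n : ℕ := {w | ∃ x, H.Adj w x}.ncard with hn
    have hcard : ((univ.filter (fun u => D u ≤ (kids H r u).card +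
        3 * (D0 / 100000000))).card : ℝ) ≤ n := by
      have := Set.ncard_le_ncard hsub (Set.toFinite _)
      rw [Set.ncard_coe_finset] at this
      exact_mod_cast this
    have hnpos : 1 ≤ n := by
      rw [hn, Nat.one_le_iff_ne_zero, Ne, Set.ncard_eq_zero (Set.toFinite _)]
      intro h
      have : u0 ∈ {w | ∃ x, H.Adj w x} := ⟨v0, h0⟩
      rw [h] at this
      exact this
    have hnpos' : (0 : ℝ) < n := by exact_mod_cast hnpos
    have hlog0 : 0 ≤ Real.log n := Real.log_nonneg (by exact_mod_cast hnpos)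
    have h1 : Real.log n < D0 / 400 := by
      have : 1000000000 * Real.log n ≤ D0 := by
        refine le_trans ?_ hClog
        nlinarith
      nlinarith
    have h2 : (n : ℝ) < Real.exp (D0 / 400) := by
      rwa [← Real.log_lt_iff_lt_exp hnpos']
    calc (∑ u ∈ univ.filter (fun u => D u ≤ (kids H r u).card +
          3 * (D0 / 100000000)), Real.exp (-(D u : ℝ) / 400))
        ≤ ∑ _u ∈ univ.filter (fun u => D u ≤ (kids H r u).card +
          3 * (D0 / 100000000)), Real.exp (-(D0 : ℝ) / 400) := by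
          refine Finset.sum_le_sum fun u _ => Real.exp_le_exp.mpr ?_
          have : (D0 : ℝ) ≤ D u := by exact_mod_cast le_max_right _ _
          linarith
      _ = ((univ.filter (fun u => D u ≤ (kids H r u).card +
          3 * (D0 / 100000000))).card : ℝ) * Real.exp (-(D0 : ℝ) / 400) := by
          rw [Finset.sum_const, nsmul_eq_mul]
      _ ≤ n * Real.exp (-(D0 : ℝ) / 400) :=
          mul_le_mul_of_nonneg_right hcard (Real.exp_pos _).le
      _ < 1 := by
          have h3 : Real.exp (-(D0 : ℝ) / 400) = (Real.exp (D0 / 400))⁻¹ := by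
            rw [← Real.exp_neg]; congr 1; ring
          rw [h3, ← div_eq_mul_inv, div_lt_one (Real.exp_pos _)]
          exact h2
  obtain ⟨g, g1, g2, g3, g4⟩ := hmain V H r K D (D0 / 100000000) d hr hN1 hN2 hdN hkey
    (fun u v hv => (hK u v (hadjk u v hv)).2) hsum (fun u => by convert hpar u) hcount
  -- the colouring
  have hedge : ∀ e : Sym2 V, ∃ p : V × V, e ∈ H.edgeSet → e = s(p.1, p.2) ∧ p.2 ∈ kids H r p.1 := by
    intro e
    by_cases he : e ∈ H.edgeSet
    · induction e using Sym2.ind with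
      | h a b =>
        have hab : H.Adj a b := he
        rcases lt_trichotomy (r a) (r b) with h | h | h
        · exact ⟨(a, b), fun _ => ⟨rfl, by simp [kids, hab, h]⟩⟩
        · exact absurd (hr h) hab.ne
        · exact ⟨(b, a), fun _ => ⟨Sym2.eq_swap, by simp [kids, hab.symm, h]⟩⟩
    · exact ⟨(u0, u0), fun h => absurd h he⟩
  choose p hp using hedge
  have hmemp : ∀ u v, v ∈ kids H r u → u ∈ pars H r v := by
    intro u v h
    simpa [kids, pars] using h
  refine ⟨fun e => g (p e).1 (p e).2, ?_, ?_⟩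
  · intro e he
    obtain ⟨h1, h2⟩ := hp e he
    have h3 := g1 _ _ h2
    have h4 := (hK _ _ (hadjk _ _ h2)).1 h3
    rwa [← h1] at h4
  · intro u v w huv huw hvw heq
    obtain ⟨h1, k1⟩ := hp s(u, v) huv
    obtain ⟨h2, k2⟩ := hp s(u, w) huw
    have hne : s(u, v) ≠ s(u, w) := fun h => hvw (by rwa [Sym2.congr_right] at h)
    change g (p s(u, v)).1 (p s(u, v)).2 = g (p s(u, w)).1 (p s(u, w)).2 at heq
    have hx : u ∈ s((p s(u, v)).1, (p s(u, v)).2) := by rw [← h1]; simp
    have hx' : u ∈ s((p s(u, w)).1, (p s(u, w)).2) := by rw [← h2]; simp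
    rw [h1, h2] at hne
    rw [Sym2.mem_iff] at hx hx'
    generalize (p s(u, v)).1 = a1 at *
    generalize (p s(u, v)).2 = b1 at *
    generalize (p s(u, w)).1 = a2 at *
    generalize (p s(u, w)).2 = b2 at *
    rcases hx with rfl | rfl <;> rcases hx' with rfl | rfl
    · exact hne (by rw [g2 _ _ k1 _ k2 heq])
    · exact g4 _ _ (hmemp _ _ k2) _ k1 heq.symm
    · exact g4 _ _ (hmemp _ _ k1) _ k2 heq
    · exact hne (by rw [g3 _ _ (hmemp _ _ k1) _ (hmemp _ _ k2) heq])

/-- The general theorem from the core, light edges and components. -/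
theorem t_gen (h1 : S_core) (h2 : S_lightL) (h3 : S_partsL) : S_gen := by
  obtain ⟨C, hC1, hC⟩ := h1
  refine ⟨C, hC1, ?_⟩
  intro V _ G L d hdegen hL
  refine h2 V G L (h3 V (heavyL G L) L fun v => ?_)
  refine hC V (part (heavyL G L) v) L d ?_ ?_
  · intro X hX
    obtain ⟨w, hw, hw'⟩ := hdegen X hX
    refine ⟨w, hw, le_trans (Set.ncard_le_ncard ?_ (Set.toFinite _)) hw'⟩
    intro b hb
    exact ⟨hb.1, hb.2.1⟩
  · intro a b hab
    obtain ⟨e1, e2, e3⟩ := hL a b hab.1
    refine ⟨le_trans (Set.ncard_le_ncard (fun w hw => hw.1) (Set.toFinite _)) e1, e2, ?_⟩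
    refine le_trans ?_ e3
    refine mul_le_mul_of_nonneg_left ?_ (by linarith)
    have hpos : 0 < {w | ∃ x, (part (heavyL G L) v).Adj w x}.ncard := by
      rw [Set.ncard_pos (Set.toFinite _)]
      exact ⟨a, b, hab⟩
    apply Real.log_le_log (by exact_mod_cast hpos)
    have hsub : {w | ∃ x, (part (heavyL G L) v).Adj w x} ⊆
        {w | (heavyL G L).Reachable a w} := by
      rintro w ⟨x, hx⟩
      exact hab.2.symm.trans hx.2
    exact_mod_cast Set.ncard_le_ncard hsub (Set.toFinite _)

end Pool.Agent.H81.LE
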