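import Pool.Agent.H81.LE.Stm

namespace Pool.Agent.H81.LE

open Finset

theorem EdgeChoosable.mono {V : Type} {G : SimpleGraph V} {k l : ℕ} (h : EdgeChoosable G k)
    (hkl : k ≤ l) : EdgeChoosable G l := fun L hL => h L fun e => hkl.trans (hL e)

theorem EdgeChoosable.colorable {V : Type} {G : SimpleGraph V} {k : ℕ} (h : EdgeChoosable G k) :
    G.lineGraph.Colorable k := by
  obtain ⟨f, hf, hp⟩ := h (fun _ => Finset.range k) (fun e => by simp)
  refine ⟨⟨fun e => ⟨f e, Finset.mem_range.mp (hf e)⟩, ?_⟩⟩
  intro a b hab heq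
  exact hp a b hab (by simpa using heq)

theorem le_of_colorable {V : Type} [Finite V] {G : SimpleGraph V} {k D : ℕ} {v : V}
    (hv : (G.neighborSet v).ncard = D) (h : G.lineGraph.Colorable k) : D ≤ k := by
  classical
  obtain ⟨c⟩ := h
  let φ : G.neighborSet v → Fin k := fun w => c ⟨s(v, w.1), w.2⟩
  have hφ : Function.Injective φ := by
    intro a b hab
    by_contra hne
    have hadj : G.lineGraph.Adj ⟨s(v, a.1), a.2⟩ ⟨s(v, b.1), b.2⟩ := by
      rw [SimpleGraph.lineGraph_adj_iff_exists]
      refine ⟨?_, v, by simp, by simp⟩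
      intro heq
      have h1 : s(v, a.1) = s(v, b.1) := congrArg Subtype.val heq
      rw [Sym2.congr_right] at h1
      exact hne (Subtype.ext h1)
    exact c.valid hadj hab
  have := Nat.card_le_card_of_injective φ hφ
  rw [Nat.card_coe_set_eq, hv] at this
  simpa using this

theorem iff_of_choosable {V : Type} [Finite V] {G : SimpleGraph V} {D : ℕ}
    (h : EdgeChoosable G D) (hv : ∃ v, (G.neighborSet v).ncard = D) (k : ℕ) :
    G.lineGraph.Colorable k ↔ EdgeChoosable G k := by
  obtain ⟨v, hv⟩ := hv
  exact ⟨fun hk => h.mono (le_of_colorable hv hk), fun hk => hk.colorable⟩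

open Classical in
theorem choosable_of_main (hmain : S_main) {V : Type} [Fintype V] (G : SimpleGraph V)
    (r : V → ℕ) (hr : Function.Injective r) (D N d : ℕ) (hN : 1 ≤ N) (hD : 100000000 * N ≤ D)
    (hdN : d ≤ N) (hN' : 3 * Real.exp 2000 * d ≤ N)
    (hdeg : ∀ v, (G.neighborSet v).ncard ≤ D) (hpar : ∀ u, (pars G r u).card ≤ d)
    (hcount : ({v | D ≤ 2 * (G.neighborSet v).ncard}.ncard : ℝ) * Real.exp (-(D : ℝ) / 400) < 1) :
    EdgeChoosable G D := by
  intro L hL
  choose L' hL' hL'c using fun e => Finset.exists_subset_card_eq (hL e)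
  let K : V → V → Finset ℕ := fun u v => if h : G.Adj u v then L' ⟨s(u, v), h⟩ else ∅
  have hK : ∀ u, ∀ v ∈ kids G r u, (K u v).card = D := by
    intro u v hv
    have hadj : G.Adj u v := by
      simp only [kids, mem_filter] at hv
      exact hv.2.1
    simp only [K, dif_pos hadj, hL'c]
  have hsum : ∀ u, (kids G r u).card + (pars G r u).card ≤ D := by
    intro u
    rw [← Finset.card_union_of_disjoint]
    · have hsub : ((kids G r u ∪ pars G r u : Finset V) : Set V) ⊆ G.neighborSet u := by
        intro v hv
        simp only [coe_union, Set.mem_union, mem_coe, kids, pars, mem_filter, mem_univ,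
          true_and] at hv
        rcases hv with h | h
        · exact h.1
        · exact h.1.symm
      have := Set.ncard_le_ncard hsub (Set.toFinite _)
      rw [Set.ncard_coe_finset] at this
      exact this.trans (hdeg u)
    · rw [Finset.disjoint_left]
      intro v hv hv'
      simp only [kids, pars, mem_filter] at hv hv'
      omega
  have hkids : ∀ u, (kids G r u).card ≤ (G.neighborSet u).ncard := by
    intro u
    have hsub : ((kids G r u : Finset V) : Set V) ⊆ G.neighborSet u := by
      intro v hv
      simp only [mem_coe, kids, mem_filter] at hv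
      exact hv.2.1
    have := Set.ncard_le_ncard hsub (Set.toFinite _)
    rwa [Set.ncard_coe_finset] at this
  have hc : ((univ.filter (fun u => D ≤ (kids G r u).card + 3 * N)).card : ℝ) *
      Real.exp (-(D : ℝ) / 400) < 1 := by
    refine lt_of_le_of_lt ?_ hcount
    gcongr
    rw [← Set.ncard_coe_finset]
    apply Set.ncard_le_ncard _ (Set.toFinite _)
    intro v hv
    simp only [coe_filter, mem_univ, true_and, Set.mem_setOf_eq] at hv ⊢
    have := hkids v
    omega
  obtain ⟨g, g1, g2, g3, g4⟩ := hmain V G r K D N d hr hN hD hdN hN' hK hsum hpar hc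
  -- every edge is `s(u, v)` with `v` a child of `u`
  have hedge : ∀ e : G.edgeSet, ∃ u v, (e : Sym2 V) = s(u, v) ∧ v ∈ kids G r u := by
    rintro ⟨e, he⟩
    induction e using Sym2.ind with
    | h a b =>
      have hab : G.Adj a b := he
      rcases lt_trichotomy (r a) (r b) with h | h | h
      · exact ⟨a, b, rfl, by simp [kids, hab, h]⟩
      · exact absurd (hr h) hab.ne
      · exact ⟨b, a, Sym2.eq_swap, by simp [kids, hab.symm, h]⟩
  choose a b hab hb using hedge
  have hmemp : ∀ u v, v ∈ kids G r u → u ∈ pars G r v := by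
    intro u v h
    simpa [kids, pars] using h
  refine ⟨fun e => g (a e) (b e), fun e => ?_, fun e e' hadj => ?_⟩
  · have h1 := g1 (a e) (b e) (hb e)
    have hadj : G.Adj (a e) (b e) := by
      have := hb e
      simp only [kids, mem_filter] at this
      exact this.2.1
    have h2 : K (a e) (b e) = L' e := by
      simp only [K, dif_pos hadj]
      congr 1
      exact Subtype.ext (hab e).symm
    rw [h2] at h1
    exact hL' e h1
  · rw [SimpleGraph.lineGraph_adj_iff_exists] at hadj
    obtain ⟨hne, x, hx, hx'⟩ := hadj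
    have hne' : s(a e, b e) ≠ s(a e', b e') := by
      rw [← hab e, ← hab e']
      exact fun h => hne (Subtype.ext h)
    rw [hab e, Sym2.mem_iff] at hx
    rw [hab e', Sym2.mem_iff] at hx'
    intro heq
    change g (a e) (b e) = g (a e') (b e') at heq
    have k1 := hb e
    have k2 := hb e'
    generalize a e = p at *
    generalize b e = q at *
    generalize a e' = p' at *
    generalize b e' = q' at *
    rcases hx with rfl | rfl <;> rcases hx' with rfl | rfl
    · -- same parent
      exact hne' (by rw [g2 _ _ k1 _ k2 heq])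
    · -- parent of `e` is the child of `e'`
      exact g4 _ _ (hmemp _ _ k2) _ k1 heq.symm
    · exact g4 _ _ (hmemp _ _ k1) _ k2 heq
    · exact hne' (by rw [g3 _ _ (hmemp _ _ k1) _ (hmemp _ _ k2) heq])

theorem choosable_of_no_edges {V : Type} {G : SimpleGraph V} (h : ∀ u v, ¬ G.Adj u v) (k : ℕ) :
    EdgeChoosable G k := by
  have he : IsEmpty G.edgeSet := by
    constructor
    rintro ⟨e, he⟩
    induction e using Sym2.ind with
    | h a b => exact h a b he
  intro L _
  exact ⟨fun e => (he.false e).elim, fun e => (he.false e).elim, fun e => (he.false e).elim⟩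

theorem t_final (hmain : S_main) (horder : S_order) : S_final := by
  classical
  refine ⟨1000000000 * Real.exp 2000, ?_⟩
  intro V _ G D d hdeg hdegen hd hlog
  have hE : (1 : ℝ) ≤ Real.exp 2000 := Real.one_le_exp (by norm_num)
  by_cases hemp : ∀ u v, ¬ G.Adj u v
  · refine ⟨choosable_of_no_edges hemp D, fun _ k => ⟨fun _ => choosable_of_no_edges hemp k,
      fun h => h.colorable⟩⟩
  push Not at hemp
  obtain ⟨u0, v0, h0⟩ := hemp
  have hd1 : 1 ≤ d := by
    by_contra hd0
    obtain ⟨v, hv, hv'⟩ := hdegen {u0, v0} ⟨u0, by simp⟩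
    have h1 : {w | w ∈ ({u0, v0} : Finset V) ∧ G.Adj v w}.ncard = 0 := by omega
    rw [Set.ncard_eq_zero (Set.toFinite _)] at h1
    have h2 : ∀ w, ¬ (w ∈ ({u0, v0} : Finset V) ∧ G.Adj v w) := fun w hw => by
      have : w ∈ {w | w ∈ ({u0, v0} : Finset V) ∧ G.Adj v w} := hw
      rw [h1] at this
      exact this
    simp only [mem_insert, mem_singleton] at hv
    rcases hv with rfl | rfl
    · exact h2 v0 ⟨by simp, h0⟩
    · exact h2 u0 ⟨by simp, h0.symm⟩
  have hd1' : (1 : ℝ) ≤ d := by exact_mod_cast hd1
  have hCd : 1000000000 * Real.exp 2000 ≤ D := by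
    refine le_trans ?_ hd
    nlinarith [Real.exp_pos 2000]
  have hDbig : (1000000000 : ℝ) ≤ D := by nlinarith
  have hDbig' : 1000000000 ≤ D := by exact_mod_cast hDbig
  obtain ⟨r, hr, hpar⟩ := horder V G d hdegen
  have hcho : EdgeChoosable G D := by
    have hN1 : 1 ≤ D / 100000000 := by omega
    have hN2 : 100000000 * (D / 100000000) ≤ D := by omega
    have hN3 : (D : ℝ) ≤ 200000000 * ((D / 100000000 : ℕ) : ℝ) := by
      have : D ≤ 200000000 * (D / 100000000) := by omega
      exact_mod_cast this
    have hkey : 3 * Real.exp 2000 * d ≤ ((D / 100000000 : ℕ) : ℝ) := by nlinarith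
    have hdN : d ≤ D / 100000000 := by
      have : (d : ℝ) ≤ ((D / 100000000 : ℕ) : ℝ) := by nlinarith
      exact_mod_cast this
    refine choosable_of_main hmain G r hr D (D / 100000000) d hN1 hN2 hdN hkey hdeg ?_ ?_
    · intro u
      convert hpar u
    · set h : ℕ := {v | D ≤ 2 * (G.neighborSet v).ncard}.ncard with hh
      by_cases hz : h = 0
      · rw [hz]; simp
      have hpos : (0 : ℝ) < h := by exact_mod_cast Nat.pos_of_ne_zero hz
      have hlog0 : 0 ≤ Real.log h := Real.log_nonneg (by exact_mod_cast Nat.one_le_iff_ne_zero.mpr hz)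
      have h1 : Real.log h < D / 400 := by
        have : 1000000000 * Real.log h ≤ D := by
          refine le_trans ?_ hlog
          nlinarith
        nlinarith
      have h2 : (h : ℝ) < Real.exp (D / 400) := by
        rwa [← Real.log_lt_iff_lt_exp hpos]
      have h3 : Real.exp (-(D : ℝ) / 400) = (Real.exp (D / 400))⁻¹ := by
        rw [← Real.exp_neg]; congr 1; ring
      rw [h3, ← div_eq_mul_inv, div_lt_one (Real.exp_pos _)]
      exact h2
  exact ⟨hcho, fun hv k => iff_of_choosable hcho hv k⟩

end Pool.Agent.H81.LE
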