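import Pool.Agent.H81.LE.StmThree
import Pool.Agent.H83.LE.Main

/-!
# The induction with a number `D u` for every vertex (adapted from `Pool.Agent.H83.LE.Main`)
-/

set_option linter.unusedSectionVars false

namespace Pool.Agent.H81.LE

open Finset Pool.Agent.H83.LE

/-- the index set of the potential -/
def idxL {V : Type} [Fintype V] [DecidableEq V] (G : SimpleGraph V) [DecidableRel G.Adj]
    (r : V → ℕ) (L : V → V → Finset ℕ) (D : V → ℕ) (N : ℕ) (t : ℕ) :
    Finset (Σ _ : V, Finset (V × ℕ)) :=
  (univ.filter (fun u => t ≤ r u ∧ D u ≤ (kids G r u).card + 3 * N)).sigma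
    (fun u => family (kids G r u) (L u) (D u))

/-- **Module main.** -/
theorem t_mainL (h1 : S_star) (h2 : S_pot) (h3 : S_count) : S_mainL := by
  intro V _ _ G _ r L D N d hr hN hND hdN hdN2 hL hD hd hbig
  obtain ⟨y, hyd⟩ : ∃ y : ℝ, y = Real.exp 2000 := ⟨_, rfl⟩
  have hy : 1 ≤ y := by rw [hyd]; exact Real.one_le_exp (by norm_num)
  have hy0 : 0 < y := by linarith
  have hN0 : (0 : ℝ) < N := by exact_mod_cast hN
  obtain ⟨θ, hθd⟩ : ∃ θ : ℝ, θ = 3 / (N : ℝ) := ⟨_, rfl⟩
  have hθ : 0 ≤ θ := by rw [hθd]; positivity
  obtain ⟨b, hb⟩ : ∃ b : ℝ, b = y * θ := ⟨_, rfl⟩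
  have hb0 : 0 ≤ b := by rw [hb]; positivity
  have hbd : b * d ≤ 1 := by
    rw [hb, hθd, hyd]
    have : Real.exp 2000 * (3 / (N : ℝ)) * d = (3 * Real.exp 2000 * d) / N := by ring
    rw [this, div_le_one hN0]
    exact hdN2
  have hD8 : ∀ u, 100000000 ≤ D u := by
    intro u
    calc 100000000 = 100000000 * 1 := by norm_num
      _ ≤ 100000000 * N := Nat.mul_le_mul_left _ hN
      _ ≤ D u := hND u
  -- the states
  have key : ∀ t : ℕ, ∃ g : V → V → ℕ, Valid G r L g t ∧
      ∑ p ∈ idxL G r L D N t, trm G r y b g t p.2 < 1 := by
    intro t
    induction t with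
    | zero =>
      refine ⟨fun _ _ => 0, fun u hu => absurd hu (Nat.not_lt_zero _), ?_⟩
      have e1 : ∀ F : Finset (V × ℕ), trm G r y b (fun _ _ => 0) 0 F ≤ Real.exp (-(F.card : ℝ)) := by
        intro F
        unfold trm
        have e2 : ∏ x ∈ F, fac G r y b (fun _ _ => 0) 0 x ≤ ∏ _x ∈ F, Real.exp 1 := by
          refine Finset.prod_le_prod (fun x _ => (fac_pos G r hy _ _ x).le) fun x _ => ?_
          unfold fac
          have e3 : x.2 ∉ TT G r (fun _ _ => 0) 0 x.1 := by
            unfold TT
            simp
          rw [if_neg e3, one_mul]
          refine Real.exp_le_exp.2 (le_trans ?_ hbd)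
          refine mul_le_mul_of_nonneg_left ?_ hb0
          have e4 : rmn G r 0 x.1 ≤ d := (Finset.card_filter_le _ _).trans (hd x.1)
          exact_mod_cast e4
        rw [Finset.prod_const, ← Real.exp_nat_mul, mul_one] at e2
        calc Real.exp (-(2 * (F.card : ℝ))) * ∏ x ∈ F, fac G r y b (fun _ _ => 0) 0 x
            ≤ Real.exp (-(2 * (F.card : ℝ))) * Real.exp (F.card : ℝ) :=
              mul_le_mul_of_nonneg_left e2 (Real.exp_pos _).le
          _ = Real.exp (-(F.card : ℝ)) := by
              rw [← Real.exp_add]
              congr 1
              ring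
      calc ∑ p ∈ idxL G r L D N 0, trm G r y b (fun _ _ => 0) 0 p.2
          ≤ ∑ p ∈ idxL G r L D N 0, Real.exp (-(p.2.card : ℝ)) :=
            Finset.sum_le_sum fun p _ => e1 p.2
        _ = ∑ u ∈ univ.filter (fun u => 0 ≤ r u ∧ D u ≤ (kids G r u).card + 3 * N),
            ∑ F ∈ family (kids G r u) (L u) (D u), Real.exp (-(F.card : ℝ)) := by
            unfold idxL
            rw [Finset.sum_sigma]
        _ ≤ ∑ u ∈ univ.filter (fun u => 0 ≤ r u ∧ D u ≤ (kids G r u).card + 3 * N),
            Real.exp (-(D u : ℝ) / 400) := by
            refine Finset.sum_le_sum fun u _ => ?_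
            refine h3 V (kids G r u) (L u) (D u) (hD8 u) (hL u) ?_
            exact (Nat.le_add_right _ _).trans (hD u)
        _ = ∑ u ∈ univ.filter (fun u => D u ≤ (kids G r u).card + 3 * N),
            Real.exp (-(D u : ℝ) / 400) := by
            simp only [Nat.zero_le, true_and]
        _ < 1 := hbig
    | succ t ih =>
      obtain ⟨g, hg, hΦ⟩ := ih
      by_cases hex : ∃ u, r u = t
      · obtain ⟨u, hu⟩ := hex
        -- the sets `T` are small
        have hT : ∀ v, (TT G r g t v).card ≤ N := by
          intro v
          refine Finset.card_image_le.trans ?_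
          exact (Finset.card_filter_le _ _).trans ((hd v).trans hdN)
        have hC : (kids G r u).card + (TT G r g t u).card ≤ D u := by
          refine le_trans ?_ (hD u)
          refine Nat.add_le_add_left ?_ _
          exact Finset.card_image_le.trans (Finset.card_filter_le _ _)
        have hgood : D u ≤ (kids G r u).card + 3 * N →
            Good (kids G r u) (L u) (TT G r g t) (D u) := by
          intro hbu F hF
          have hp : (⟨u, F⟩ : Σ _ : V, Finset (V × ℕ)) ∈ idxL G r L D N t := by
            unfold idxL
            rw [Finset.mem_sigma]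
            exact ⟨Finset.mem_filter.2 ⟨Finset.mem_univ _, hu.ge, hbu⟩, hF⟩
          have e1 : trm G r y b g t F < 1 := by
            refine lt_of_le_of_lt ?_ hΦ
            exact Finset.single_le_sum (f := fun p : Σ _ : V, Finset (V × ℕ) =>
              trm G r y b g t p.2) (fun p _ => trm_nonneg G r hy g t p.2) hp
          have e2 : y ^ (F.filter (fun x => x.2 ∈ TT G r g t x.1)).card ≤
              ∏ x ∈ F, fac G r y b g t x := by
            rw [← Finset.prod_const, Finset.prod_filter]
            refine Finset.prod_le_prod (fun x _ => ?_) fun x _ => ?_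
            · split_ifs
              · exact hy0.le
              · exact zero_le_one
            · unfold fac
              refine le_mul_of_one_le_right ?_ (Real.one_le_exp (by positivity))
              split_ifs
              · exact hy0.le
              · exact zero_le_one
          unfold trm at e1
          have e3 : Real.exp (-(2 * (F.card : ℝ))) *
              y ^ (F.filter (fun x => x.2 ∈ TT G r g t x.1)).card < 1 :=
            lt_of_le_of_lt (mul_le_mul_of_nonneg_left e2 (Real.exp_pos _).le) e1
          rw [hyd, ← Real.exp_nat_mul, ← Real.exp_add, Real.exp_lt_one_iff] at e3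
          have e4 : (((F.filter (fun x => x.2 ∈ TT G r g t x.1)).card * 2000 : ℕ) : ℝ) <
              ((2 * F.card : ℕ) : ℝ) := by
            push_cast
            linarith
          have e5 := Nat.cast_lt.1 e4
          omega
        have hspr := h1 V (kids G r u) (L u) (TT G r g t) (TT G r g t u) (D u) N hN (hND u) (hL u)
          (fun v _ => hT v) (hT u) hC hgood
        rw [← hθd] at hspr
        obtain ⟨M, hM, hMΦ⟩ := h2 (V × ℕ) θ y _ (Σ _ : V, Finset (V × ℕ))
          (idxL G r L D N (t + 1))
          (fun p => trm G r y b g t p.2 *
            Real.exp (-b) ^ (p.2.filter (fun x => x.1 ∈ kids G r u)).card)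
          (fun p => p.2.filter (fun x => x.1 ∈ kids G r u)) hθ hy hspr
          (fun p _ => mul_nonneg (trm_nonneg G r hy g t p.2) (pow_nonneg (Real.exp_pos _).le _))
        refine ⟨upd g u M, ?_, ?_⟩
        · intro u' hu'
          rcases Nat.lt_succ_iff_lt_or_eq.1 hu' with hlt | heq
          · obtain ⟨a1, a2, a3, a4⟩ := hg u' hlt
            have hne : u' ≠ u := by
              rintro rfl
              omega
            rw [upd_ne g M hne]
            refine ⟨a1, a2, fun w hw v hv => ?_, fun v hv w hw hlt2 => ?_⟩
            · have hwu : w ≠ u := by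
                rintro rfl
                have := ((mem_pars G r).1 hw).2
                omega
              rw [upd_ne g M hwu]
              exact a3 w hw v hv
            · have hwu : w ≠ u := by
                rintro rfl
                omega
              rw [upd_ne g M hwu]
              exact a4 v hv w hw hlt2
          · have huu : u' = u := hr (heq.trans hu.symm)
            subst huu
            have hmem : ∀ v ∈ kids G r u', upd g u' M u' v ∈
                (L u' v \ TT G r g t u') \ TT G r g t v := fun v hv =>
              (hM.mem _ (upd_mem g (hM.cover v hv))).2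
            refine ⟨fun v hv => ?_, fun v hv w hw hvw => ?_, fun w hw v hv => ?_,
              fun v hv w hw hlt2 => ?_⟩
            · exact (Finset.mem_sdiff.1 (Finset.mem_sdiff.1 (hmem v hv)).1).1
            · have b1 := upd_mem g (u := u') (hM.cover v hv)
              have b2 := upd_mem g (u := u') (hM.cover w hw)
              have b3 := hM.col _ b1 _ b2 hvw
              exact (Prod.ext_iff.1 b3).1
            · have hlt3 := ((mem_pars G r).1 hw).2
              have hwu : w ≠ u' := by
                rintro rfl
                omega
              rw [upd_ne g M hwu]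
              intro hEq
              refine (Finset.mem_sdiff.1 (Finset.mem_sdiff.1 (hmem v hv)).1).2 ?_
              rw [← hEq]
              exact Finset.mem_image.2 ⟨w, Finset.mem_filter.2 ⟨hw, by omega⟩, rfl⟩
            · have hwu : w ≠ u' := by
                rintro rfl
                omega
              rw [upd_ne g M hwu]
              intro hEq
              refine (Finset.mem_sdiff.1 (hmem v hv)).2 ?_
              rw [← hEq]
              exact Finset.mem_image.2 ⟨w, Finset.mem_filter.2 ⟨hw, by omega⟩, rfl⟩
        · have c1 : ∑ p ∈ idxL G r L D N (t + 1), trm G r y b (upd g u M) (t + 1) p.2 ≤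
              ∑ p ∈ idxL G r L D N (t + 1), (trm G r y b g t p.2 *
                Real.exp (-b) ^ (p.2.filter (fun x => x.1 ∈ kids G r u)).card) *
                y ^ ((p.2.filter (fun x => x.1 ∈ kids G r u)) ∩ M).card :=
            Finset.sum_le_sum fun p _ => trm_step hr hy g hu hM.cover p.2
          have c2 : 1 + (y - 1) * θ ≤ Real.exp b := by
            have c3 := Real.add_one_le_exp b
            have c4 : (y - 1) * θ ≤ b := by
              rw [hb]
              exact mul_le_mul_of_nonneg_right (by linarith) hθ
            linarith
          have c5 : ∑ p ∈ idxL G r L D N (t + 1), (trm G r y b g t p.2 *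
                Real.exp (-b) ^ (p.2.filter (fun x => x.1 ∈ kids G r u)).card) *
                (1 + (y - 1) * θ) ^ (p.2.filter (fun x => x.1 ∈ kids G r u)).card ≤
              ∑ p ∈ idxL G r L D N (t + 1), trm G r y b g t p.2 := by
            refine Finset.sum_le_sum fun p _ => ?_
            have c6 : (1 + (y - 1) * θ) ^ (p.2.filter (fun x => x.1 ∈ kids G r u)).card ≤
                Real.exp b ^ (p.2.filter (fun x => x.1 ∈ kids G r u)).card := by
              refine pow_le_pow_left₀ ?_ c2 _
              have : 0 ≤ (y - 1) * θ := mul_nonneg (by linarith) hθ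
              linarith
            calc (trm G r y b g t p.2 *
                Real.exp (-b) ^ (p.2.filter (fun x => x.1 ∈ kids G r u)).card) *
                (1 + (y - 1) * θ) ^ (p.2.filter (fun x => x.1 ∈ kids G r u)).card
                ≤ (trm G r y b g t p.2 *
                Real.exp (-b) ^ (p.2.filter (fun x => x.1 ∈ kids G r u)).card) *
                Real.exp b ^ (p.2.filter (fun x => x.1 ∈ kids G r u)).card :=
                  mul_le_mul_of_nonneg_left c6
                    (mul_nonneg (trm_nonneg G r hy g t p.2) (pow_nonneg (Real.exp_pos _).le _))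
              _ = trm G r y b g t p.2 := by
                  rw [mul_assoc, ← mul_pow, ← Real.exp_add, neg_add_cancel, Real.exp_zero,
                    one_pow, mul_one]
          have c7 : ∑ p ∈ idxL G r L D N (t + 1), trm G r y b g t p.2 ≤
              ∑ p ∈ idxL G r L D N t, trm G r y b g t p.2 := by
            refine Finset.sum_le_sum_of_subset_of_nonneg ?_ fun p _ _ =>
              trm_nonneg G r hy g t p.2
            unfold idxL
            refine Finset.sigma_mono ?_ fun _ => subset_rfl
            intro w hw
            obtain ⟨_, hw2, hw3⟩ := Finset.mem_filter.1 hw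
            exact Finset.mem_filter.2 ⟨Finset.mem_univ _, by omega, hw3⟩
          exact lt_of_le_of_lt (c1.trans (hMΦ.trans (c5.trans c7))) hΦ
      · have hne : ∀ w, r w ≠ t := fun w hw => hex ⟨w, hw⟩
        refine ⟨g, fun u hu => hg u ?_, ?_⟩
        · have := hne u
          omega
        · have d1 : ∀ v, TT G r g (t + 1) v = TT G r g t v := by
            intro v
            unfold TT
            congr 1
            refine Finset.filter_congr fun w _ => ?_
            have := hne w
            omega
          have d2 : ∀ v, rmn G r (t + 1) v = rmn G r t v := by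
            intro v
            unfold rmn
            congr 1
            refine Finset.filter_congr fun w _ => ?_
            have := hne w
            omega
          have d3 : idxL G r L D N (t + 1) = idxL G r L D N t := by
            unfold idxL
            congr 1
            refine Finset.filter_congr fun w _ => ?_
            have := hne w
            omega
          have d4 : ∀ F, trm G r y b g (t + 1) F = trm G r y b g t F := by
            intro F
            unfold trm fac
            simp only [d1, d2]
          rw [d3]
          simp only [d4]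
          exact hΦ
  obtain ⟨g, hg, -⟩ := key (univ.sup r + 1)
  have hlt : ∀ u, r u < univ.sup r + 1 := fun u =>
    Nat.lt_succ_of_le (Finset.le_sup (Finset.mem_univ u))
  refine ⟨g, fun u => (hg u (hlt u)).1, fun u => (hg u (hlt u)).2.1, fun v u hu w hw huw => ?_,
    fun u => (hg u (hlt u)).2.2.1⟩
  by_contra hne
  have hrne : r u ≠ r w := fun h => hne (hr h)
  rcases Nat.lt_or_gt_of_ne hrne with h | h
  · exact (hg w (hlt w)).2.2.2 v ((pars_iff G r).1 hw) u hu h huw
  · exact (hg u (hlt u)).2.2.2 v ((pars_iff G r).1 hu) w hw h huw.symm

end Pool.Agent.H81.LE
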