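import Pool.Agent.H81.LE.StmThree

namespace Pool.Agent.H81.LE

open Finset

theorem t_partsL : S_partsL := by
  classical
  intro V _ H L h
  choose f hf1 hf2 using h
  let rep : V → V := fun a => (H.connectedComponentMk a).out
  have hrep : ∀ a, H.Reachable (rep a) a := fun a => by
    have : H.connectedComponentMk (rep a) = H.connectedComponentMk a :=
      Quot.out_eq (H.connectedComponentMk a)
    exact SimpleGraph.ConnectedComponent.exact this
  have hrep2 : ∀ a b, H.Reachable a b → rep a = rep b := fun a b hab => by
    have : H.connectedComponentMk a = H.connectedComponentMk b :=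
      SimpleGraph.ConnectedComponent.sound hab
    simp only [rep, this]
  let F : Sym2 V → ℕ := fun e => f (rep (Quot.out e).1) e
  have hF : ∀ u v, H.Adj u v → F s(u, v) = f (rep u) s(u, v) := by
    intro u v huv
    have h1 : (Quot.out s(u, v)).1 ∈ s(u, v) := Sym2.out_fst_mem _
    rw [Sym2.mem_iff] at h1
    have h2 : rep (Quot.out s(u, v)).1 = rep u := by
      rcases h1 with h1 | h1
      · rw [h1]
      · rw [h1]
        exact hrep2 _ _ huv.symm.reachable
    change f (rep (Quot.out s(u, v)).1) s(u, v) = _
    rw [h2]
  refine ⟨F, ?_, ?_⟩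
  · intro e he
    induction e using Sym2.ind with
    | h a b =>
      have hab : H.Adj a b := he
      rw [hF a b hab]
      exact hf1 (rep a) s(a, b) ⟨hab, hrep a⟩
  · intro u v w huv huw hvw
    rw [hF u v huv, hF u w huw]
    exact hf2 (rep u) u v w ⟨huv, hrep u⟩ ⟨huw, hrep u⟩ hvw

end Pool.Agent.H81.LE
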