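import Pool.Agent.H81.LE.Star
import Pool.Agent.H81.LE.Fin
import Pool.Agent.H81.LE.MainL
import Pool.Agent.H81.LE.Core
import Pool.Agent.H81.LE.PartsL
import Pool.Agent.H40.LE.Comp
import Pool.Agent.H49.LE.Rows
import Pool.Agent.H49.LE.Picks
import Pool.Agent.H52.LE.Sum
import Pool.Agent.H52.LE.Order
import Pool.Agent.H58.LE.Ncm
import Pool.Agent.H78.LE.Pot
import Pool.Agent.H78.LE.Hall
import Pool.Agent.H82.LE.Uni
import Pool.Agent.H82.LE.Count
import Pool.Agent.H83.LE.Greedy
import Pool.Agent.H93.LE.CaseTwo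
import Pool.Agent.H93.LE.LightL
import Pool.Agent.H97.LE.CaseOne

namespace Pool.Agent.H81.LE

theorem a_greedy : S_greedy := H83.LE.t_greedy H49.LE.t_rows
theorem a_ncm : S_ncm := H58.LE.t_ncm H52.LE.t_sum H82.LE.t_uni H78.LE.t_hall
theorem a_case1 : S_case1 := H97.LE.t_case1 H49.LE.t_rows a_greedy
theorem a_case2 : S_case2 := H93.LE.t_case2 H40.LE.t_comp a_greedy H49.LE.t_picks a_ncm
theorem a_star : S_star := t_star a_case1 a_case2 a_greedy
theorem a_mainL : S_mainL := t_mainL a_star H78.LE.t_pot H82.LE.t_count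
theorem a_core : S_core := t_core a_mainL H52.LE.t_order
theorem a_gen : S_gen := t_gen a_core H93.LE.t_lightL t_partsL

end Pool.Agent.H81.LE
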