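import Pool.Agent.H81.LE.StmTwo
import Pool.Agent.H81.LE.Fin

namespace Pool.Agent.H81.LE

open Finset

theorem t_local (h1 : S_final) (h2 : S_light) (h3 : S_parts) : S_local := by
  classical
  obtain ⟨C, hC⟩ := h1
  refine ⟨max C 1, ?_⟩
  intro V _ G D d hdeg hdegen hd hlog
  have hcho : EdgeChoosable G D := by
    refine h2 V G D (h3 V (heavy G D) D fun v => ?_)
    rcases Nat.eq_zero_or_pos D with rfl | hDpos
    · -- no edges at all
      refine choosable_of_no_edges (fun a b hab => ?_) 0
      have hG : G.Adj a b := hab.1.1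
      have : (G.neighborSet a).ncard ≤ 0 := hdeg a
      have h0 : (G.neighborSet a).ncard = 0 := by omega
      rw [Set.ncard_eq_zero (Set.toFinite _)] at h0
      have : b ∈ G.neighborSet a := hG
      rw [h0] at this
      exact this
    have hsub : ∀ w, (part (heavy G D) v).neighborSet w ⊆ G.neighborSet w :=
      fun w b hb => hb.1.1
    have hle : ∀ w, ((part (heavy G D) v).neighborSet w).ncard ≤ (G.neighborSet w).ncard :=
      fun w => Set.ncard_le_ncard (hsub w) (Set.toFinite _)
    have hd0 : (0 : ℝ) ≤ d := Nat.cast_nonneg d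
    refine (hC V (part (heavy G D) v) D d (fun w => (hle w).trans (hdeg w)) ?_ ?_ ?_).1
    · intro X hX
      obtain ⟨w, hw, hw'⟩ := hdegen X hX
      refine ⟨w, hw, le_trans (Set.ncard_le_ncard ?_ (Set.toFinite _)) hw'⟩
      intro b hb
      exact ⟨hb.1, hb.2.1⟩
    · exact le_trans (mul_le_mul_of_nonneg_right (le_max_left _ _) hd0) hd
    · have hcount : {w | D ≤ 2 * ((part (heavy G D) v).neighborSet w).ncard}.ncard ≤
          {w | (heavy G D).Reachable v w ∧ D ≤ 2 * (G.neighborSet w).ncard}.ncard := by
        refine Set.ncard_le_ncard ?_ (Set.toFinite _)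
        intro w hw
        have hw1 : D ≤ 2 * ((part (heavy G D) v).neighborSet w).ncard := hw
        have hpos : 0 < ((part (heavy G D) v).neighborSet w).ncard := by omega
        obtain ⟨b, hb⟩ := (Set.ncard_pos (Set.toFinite _)).mp hpos
        exact ⟨hb.2, hw1.trans (Nat.mul_le_mul_left 2 (hle w))⟩
      by_cases hz : {w | D ≤ 2 * ((part (heavy G D) v).neighborSet w).ncard}.ncard = 0
      · rw [hz]; simp
      have h5 : Real.log ({w | D ≤ 2 * ((part (heavy G D) v).neighborSet w).ncard}.ncard) ≤
          Real.log ({w | (heavy G D).Reachable v w ∧ D ≤ 2 * (G.neighborSet w).ncard}.ncard) := by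
        apply Real.log_le_log (by exact_mod_cast Nat.pos_of_ne_zero hz)
        exact_mod_cast hcount
      have h6 : 0 ≤ Real.log ({w | D ≤ 2 * ((part (heavy G D) v).neighborSet w).ncard}.ncard) :=
        Real.log_nonneg (by exact_mod_cast Nat.one_le_iff_ne_zero.mpr hz)
      calc C * Real.log ({w | D ≤ 2 * ((part (heavy G D) v).neighborSet w).ncard}.ncard)
          ≤ max C 1 * Real.log ({w | D ≤ 2 * ((part (heavy G D) v).neighborSet w).ncard}.ncard) :=
            mul_le_mul_of_nonneg_right (le_max_left _ _) h6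
        _ ≤ max C 1 * Real.log ({w | (heavy G D).Reachable v w ∧
              D ≤ 2 * (G.neighborSet w).ncard}.ncard) :=
            mul_le_mul_of_nonneg_left h5 (le_trans zero_le_one (le_max_right _ _))
        _ ≤ D := hlog v
  exact ⟨hcho, fun hv k => iff_of_choosable hcho hv k⟩

end Pool.Agent.H81.LE
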