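import Pool.Agent.H81.LE.All
import Pool.Graph.R_seed8.H892.LEC.Few

/-!
# Graphs which are sparse near the vertices of large degree

The edges meeting `T` are coloured first (`S_gen`), the other edges by the bound
`D + K (√(D log n) + log n)` for all graphs (library, `Pool.Agent.H892.LEC.col_S`).
-/

namespace Pool.Agent.H81.LE

open Finset

theorem near : ∃ C : ℝ, 1 ≤ C ∧ ∀ (V : Type) [Fintype V] (G : SimpleGraph V)
    (L : Sym2 V → Finset ℕ) (D d : ℕ) (T : Set V),
    (∀ v, (G.neighborSet v).ncard ≤ D) →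
    (∀ X : Finset V, X.Nonempty → (∀ v ∈ X, v ∈ T) →
      ∃ v ∈ X, {w | w ∈ X ∧ G.Adj v w}.ncard ≤ d) →
    (∀ v, v ∉ T → {w | w ∈ T ∧ G.Adj v w}.ncard ≤ d) →
    (∀ v, v ∉ T → ({w | w ∉ T ∧ G.Adj v w}.ncard : ℝ) + 2 * d +
      C * (Real.sqrt (D * Real.log (Fintype.card V)) + Real.log (Fintype.card V)) ≤ D) →
    C * d ≤ D → C * Real.log (Fintype.card V) ≤ D →
    (∀ e ∈ G.edgeSet, D ≤ (L e).card) → ListCol G L := by
  classical
  obtain ⟨C1, hC1, hgen⟩ := a_gen
  obtain ⟨K, hK1, hS⟩ := Pool.Agent.H892.LEC.col_S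
  refine ⟨C1 + K, by linarith, ?_⟩
  intro V _ G L D d T hdeg hT1 hT2 hT3 hd hlog hL
  have hlog0 : 0 ≤ Real.log (Fintype.card V) := Real.log_natCast_nonneg _
  have hd0 : (0 : ℝ) ≤ d := Nat.cast_nonneg d
  -- the edges meeting `T`
  let H : SimpleGraph V :=
    { Adj := fun u v => G.Adj u v ∧ (u ∈ T ∨ v ∈ T)
      symm := ⟨fun u v h => ⟨h.1.symm, h.2.symm⟩⟩
      loopless := ⟨fun _ h => G.loopless.irrefl _ h.1⟩ }
  have hH : ∀ u v, H.Adj u v ↔ G.Adj u v ∧ (u ∈ T ∨ v ∈ T) := fun _ _ => Iff.rfl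
  obtain ⟨f1, hf1, hf1'⟩ : ListCol H L := by
    refine hgen V H L d ?_ ?_
    · intro X hX
      by_cases hall : ∀ v ∈ X, v ∈ T
      · obtain ⟨v, hv, hv'⟩ := hT1 X hX hall
        refine ⟨v, hv, le_trans (Set.ncard_le_ncard ?_ (Set.toFinite _)) hv'⟩
        intro w hw
        exact ⟨hw.1, hw.2.1.1⟩
      · push Not at hall
        obtain ⟨v, hv, hvT⟩ := hall
        refine ⟨v, hv, le_trans (Set.ncard_le_ncard ?_ (Set.toFinite _)) (hT2 v hvT)⟩
        intro w hw
        exact ⟨hw.2.1.2.resolve_left hvT, hw.2.1.1⟩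
    · intro u v huv
      have hadj : G.Adj u v := huv.1.1
      have h1 : D ≤ (L s(u, v)).card := hL _ hadj
      have h1' : (D : ℝ) ≤ ((L s(u, v)).card : ℝ) := by exact_mod_cast h1
      refine ⟨le_trans ((Set.ncard_le_ncard (fun w hw => hw.1.1) (Set.toFinite _)).trans
        (hdeg u)) h1, ?_, ?_⟩
      · nlinarith
      · have hpos : 0 < {w | (heavyL H L).Reachable u w}.ncard := by
          rw [Set.ncard_pos (Set.toFinite _)]
          exact ⟨u, SimpleGraph.Reachable.refl u⟩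
        have hle : {w | (heavyL H L).Reachable u w}.ncard ≤ Fintype.card V := by
          rw [← Nat.card_eq_fintype_card]
          exact Set.ncard_le_card _
        have hlog1 : Real.log ({w | (heavyL H L).Reachable u w}.ncard) ≤
            Real.log (Fintype.card V) :=
          Real.log_le_log (by exact_mod_cast hpos) (by exact_mod_cast hle)
        nlinarith
  -- the other edges
  let G2 : SimpleGraph V :=
    { Adj := fun u v => G.Adj u v ∧ u ∉ T ∧ v ∉ T
      symm := ⟨fun u v h => ⟨h.1.symm, h.2.2, h.2.1⟩⟩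
      loopless := ⟨fun _ h => G.loopless.irrefl _ h.1⟩ }
  let used : V → Finset ℕ := fun x =>
    (univ.filter (fun w => w ∈ T ∧ G.Adj x w)).image (fun w => f1 s(x, w))
  have hused : ∀ x, x ∉ T → (used x).card ≤ d := by
    intro x hx
    refine card_image_le.trans ?_
    have := hT2 x hx
    rw [← Set.ncard_coe_finset]
    simpa using this
  let L2 : V → V → Finset ℕ := fun x y => L s(x, y) \ (used x ∪ used y)
  have hL2 : ∀ x y, G2.Adj x y → (D : ℝ) - 2 * d ≤ ((L2 x y).card : ℝ) := by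
    intro x y hxy
    have h1 : D ≤ (L s(x, y)).card := hL _ hxy.1
    have h2 := Finset.le_card_sdiff (used x ∪ used y) (L s(x, y))
    have h3 := Finset.card_union_le (used x) (used y)
    have h4 := hused x hxy.2.1
    have h5 := hused y hxy.2.2
    have h6 : D ≤ (L2 x y).card + 2 * d := by
      show D ≤ (L s(x, y) \ (used x ∪ used y)).card + 2 * d
      omega
    have h7 : (D : ℝ) ≤ ((L2 x y).card : ℝ) + 2 * d := by exact_mod_cast h6
    linarith
  have hLC : Pool.Agent.H162R2.Sparse.LC G2 L2 := by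
    by_cases hE : ∃ x y, G2.Adj x y
    · obtain ⟨x0, y0, hxy0⟩ := hE
      obtain ⟨v0, -, hv0⟩ := Finset.exists_max_image univ
        (fun v => Pool.Agent.H162R2.Sparse.dg G2 v) ⟨x0, mem_univ _⟩
      have hpos : 0 < Pool.Agent.H162R2.Sparse.dg G2 v0 := by
        have h1 : 0 < Pool.Agent.H162R2.Sparse.dg G2 x0 := by
          unfold Pool.Agent.H162R2.Sparse.dg
          rw [Finset.card_pos]
          exact ⟨y0, (Pool.Agent.H162R2.Sparse.mem_nb _ _ _).2 hxy0⟩
        exact lt_of_lt_of_le h1 (hv0 x0 (mem_univ _))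
      have hv0T : v0 ∉ T := by
        unfold Pool.Agent.H162R2.Sparse.dg at hpos
        rw [Finset.card_pos] at hpos
        obtain ⟨w, hw⟩ := hpos
        exact ((Pool.Agent.H162R2.Sparse.mem_nb _ _ _).1 hw).2.1
      have hdg : Pool.Agent.H162R2.Sparse.dg G2 v0 ≤ {w | w ∉ T ∧ G.Adj v0 w}.ncard := by
        rw [Pool.Agent.H162R2.Sparse.dg_eq_ncard]
        refine Set.ncard_le_ncard ?_ (Set.toFinite _)
        intro w hw
        exact ⟨hw.2.2, hw.1⟩
      have hdgD : Pool.Agent.H162R2.Sparse.dg G2 v0 ≤ D := by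
        rw [Pool.Agent.H162R2.Sparse.dg_eq_ncard]
        refine le_trans (Set.ncard_le_ncard ?_ (Set.toFinite _)) (hdeg v0)
        intro w hw
        exact hw.1
      refine hS V G2 (Pool.Agent.H162R2.Sparse.dg G2 v0) (fun v => hv0 v (mem_univ _)) L2 ?_ ?_
      · intro x y
        show L s(x, y) \ (used x ∪ used y) = L s(y, x) \ (used y ∪ used x)
        rw [Sym2.eq_swap, union_comm]
      · intro x y hxy
        refine le_trans ?_ (hL2 x y hxy)
        have h1 := hT3 v0 hv0T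
        have h2 : (Pool.Agent.H162R2.Sparse.dg G2 v0 : ℝ) ≤
            ({w | w ∉ T ∧ G.Adj v0 w}.ncard : ℝ) := by exact_mod_cast hdg
        have h3 : Real.sqrt (Pool.Agent.H162R2.Sparse.dg G2 v0 * Real.log (Fintype.card V)) ≤
            Real.sqrt (D * Real.log (Fintype.card V)) := by
          apply Real.sqrt_le_sqrt
          have h4 : (Pool.Agent.H162R2.Sparse.dg G2 v0 : ℝ) ≤ D := by exact_mod_cast hdgD
          exact mul_le_mul_of_nonneg_right h4 hlog0
        have h5 : 0 ≤ Real.sqrt (D * Real.log (Fintype.card V)) := Real.sqrt_nonneg _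
        nlinarith
    · push Not at hE
      exact ⟨fun _ _ => 0, fun x y h => absurd h (hE x y), fun x y h => absurd h (hE x y),
        fun x y z h => absurd h (hE x y)⟩
  obtain ⟨f2, hsym, hf2, hf2'⟩ := hLC
  -- combination
  let f2' : Sym2 V → ℕ := fun e => f2 (Quot.out e).1 (Quot.out e).2
  have hf2e : ∀ x y, G2.Adj x y → f2' s(x, y) = f2 x y := by
    intro x y hxy
    have h1 : s((Quot.out s(x, y)).1, (Quot.out s(x, y)).2) = s(x, y) := Quot.out_eq s(x, y)
    show f2 (Quot.out s(x, y)).1 (Quot.out s(x, y)).2 = f2 x y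
    rw [Sym2.eq_iff] at h1
    rcases h1 with ⟨h1, h2⟩ | ⟨h1, h2⟩
    · rw [h1, h2]
    · rw [h1, h2]
      exact (hsym x y hxy).symm
  let f : Sym2 V → ℕ := fun e => if ∃ v ∈ e, v ∈ T then f1 e else f2' e
  have hfT : ∀ x y, (x ∈ T ∨ y ∈ T) → f s(x, y) = f1 s(x, y) := by
    intro x y h
    have : ∃ v ∈ s(x, y), v ∈ T := by
      rcases h with h | h
      · exact ⟨x, by simp, h⟩
      · exact ⟨y, by simp, h⟩
    simp only [f, if_pos this]
  have hfN : ∀ x y, G.Adj x y → x ∉ T → y ∉ T → f s(x, y) = f2 x y := by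
    intro x y hxy hx hy
    have : ¬ ∃ v ∈ s(x, y), v ∈ T := by
      rintro ⟨v, hv, hvT⟩
      rw [Sym2.mem_iff] at hv
      rcases hv with rfl | rfl
      · exact hx hvT
      · exact hy hvT
    simp only [f, if_neg this]
    exact hf2e x y ⟨hxy, hx, hy⟩
  have hmix : ∀ u v w, G.Adj u v → G.Adj u w → u ∉ T → v ∈ T → w ∉ T →
      f1 s(u, v) ≠ f2 u w := by
    intro u v w huv huw hu hv hw heq
    have h1 := hf2 u w ⟨huw, hu, hw⟩
    have h2 : f1 s(u, v) ∈ used u :=
      Finset.mem_image.2 ⟨v, Finset.mem_filter.2 ⟨mem_univ _, hv, huv⟩, rfl⟩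
    rw [← heq] at h1
    exact (Finset.mem_sdiff.1 h1).2 (Finset.mem_union_left _ h2)
  refine ⟨f, ?_, ?_⟩
  · intro e he
    induction e using Sym2.ind with
    | h a b =>
      have hab : G.Adj a b := he
      by_cases hT : a ∈ T ∨ b ∈ T
      · rw [hfT a b hT]
        exact hf1 s(a, b) ⟨hab, hT⟩
      · push Not at hT
        rw [hfN a b hab hT.1 hT.2]
        exact (Finset.mem_sdiff.1 (hf2 a b ⟨hab, hT.1, hT.2⟩)).1
  · intro u v w huv huw hvw
    by_cases hu : u ∈ T
    · rw [hfT u v (Or.inl hu), hfT u w (Or.inl hu)]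
      exact hf1' u v w ⟨huv, Or.inl hu⟩ ⟨huw, Or.inl hu⟩ hvw
    · by_cases hv : v ∈ T <;> by_cases hw : w ∈ T
      · rw [hfT u v (Or.inr hv), hfT u w (Or.inr hw)]
        exact hf1' u v w ⟨huv, Or.inr hv⟩ ⟨huw, Or.inr hw⟩ hvw
      · rw [hfT u v (Or.inr hv), hfN u w huw hu hw]
        exact hmix u v w huv huw hu hv hw
      · rw [hfN u v huv hu hv, hfT u w (Or.inr hw)]
        exact (hmix u w v huw huv hu hw hv).symm
      · rw [hfN u v huv hu hv, hfN u w huw hu hw]
        exact hf2' u v w ⟨huv, hu, hv⟩ ⟨huw, hu, hw⟩ hvw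

end Pool.Agent.H81.LE
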