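import Pool.Agent.H81.LE.Stm

namespace Pool.Agent.H81.LE

open Finset

theorem t_star (h1 : S_case1) (h2 : S_case2) (h3 : S_greedy) : S_star := by
  intro V _ S L T C D N hN hD hL hT hC hS hG
  have hN0 : (0 : ℝ) < N := by exact_mod_cast hN
  have h13 : (1 / (N : ℝ)) ≤ 3 / N := by gcongr; norm_num
  by_cases hc : S.card + 3 * N ≤ D
  · refine (h3 V N S (fun v => (L v \ C) \ T v) hN ?_).mono (by positivity) h13 (fun M h => h)
    intro v hv
    have a1 : (L v).card - C.card ≤ (L v \ C).card := Finset.le_card_sdiff C (L v)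
    have a2 : (L v \ C).card - (T v).card ≤ ((L v \ C) \ T v).card :=
      Finset.le_card_sdiff (T v) (L v \ C)
    have := hL v hv
    have := hT v hv
    show N + S.card ≤ ((L v \ C) \ T v).card
    omega
  · have hD' : D ≤ S.card + 3 * N := by omega
    by_cases hb : D / 8000 ≤ (S.filter (fun v => D ≤ 1000 * ((L v \ popular S L D) \ C).card)).card
    · exact (h1 V S L T C D N hN hD hL hT hC hS hD' hb).mono (by positivity) h13 (fun M h => h)
    · exact h2 V S L T C D N hN hD hL hT hC hS hD' (not_le.mp hb) (hG hD')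

end Pool.Agent.H81.LE
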