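import Pool.Agent.H81.LE.StmTwo

/-!
# Project LE, version with local lists
-/

namespace Pool.Agent.H81.LE

open Finset

/-- `G` has a proper edge colouring with every edge coloured from its list. -/
def ListCol {V : Type} (G : SimpleGraph V) (L : Sym2 V → Finset ℕ) : Prop :=
  ∃ f : Sym2 V → ℕ, (∀ e ∈ G.edgeSet, f e ∈ L e) ∧
    ∀ u v w, G.Adj u v → G.Adj u w → v ≠ w → f s(u, v) ≠ f s(u, w)

/-- The graph of the heavy edges of `G` for the lists `L`: those `u v` with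
`deg u + deg v ≥ |L (u v)| + 2`. -/
def heavyL {V : Type} (G : SimpleGraph V) (L : Sym2 V → Finset ℕ) : SimpleGraph V where
  Adj u v := G.Adj u v ∧ (L s(u, v)).card + 2 ≤ (G.neighborSet u).ncard + (G.neighborSet v).ncard
  symm := ⟨fun u v h => ⟨h.1.symm, by
    rw [Sym2.eq_swap, add_comm (G.neighborSet _).ncard]; exact h.2⟩⟩
  loopless := ⟨fun _ h => G.loopless.irrefl _ h.1⟩

/-- **Light edges** (as `S_light`). -/
def S_lightL : Prop := ∀ (V : Type) [Fintype V] (G : SimpleGraph V) (L : Sym2 V → Finset ℕ),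
  ListCol (heavyL G L) L → ListCol G L

/-- **Components** (as `S_parts`): colour an edge `s(a, b)` with the colouring of `part H v`, `v` the
chosen representative of the component of `a`. -/
def S_partsL : Prop := ∀ (V : Type) [Fintype V] (H : SimpleGraph V) (L : Sym2 V → Finset ℕ),
  (∀ v, ListCol (part H v) L) → ListCol H L

/-- As `S_main` with a number `D u` for every vertex `u`. -/
def S_mainL : Prop := ∀ (V : Type) [Fintype V] [DecidableEq V] (G : SimpleGraph V)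
  [DecidableRel G.Adj] (r : V → ℕ) (L : V → V → Finset ℕ) (D : V → ℕ) (N d : ℕ),
  Function.Injective r →
  1 ≤ N → (∀ u, 100000000 * N ≤ D u) → d ≤ N → 3 * Real.exp 2000 * d ≤ N →
  (∀ u, ∀ v ∈ kids G r u, (L u v).card = D u) →
  (∀ u, (kids G r u).card + (pars G r u).card ≤ D u) →
  (∀ u, (pars G r u).card ≤ d) →
  (∑ u ∈ univ.filter (fun u => D u ≤ (kids G r u).card + 3 * N),
    Real.exp (-(D u : ℝ) / 400)) < 1 →
  ∃ g : V → V → ℕ, (∀ u, ∀ v ∈ kids G r u, g u v ∈ L u v) ∧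
    (∀ u, ∀ v ∈ kids G r u, ∀ w ∈ kids G r u, g u v = g u w → v = w) ∧
    (∀ v, ∀ u ∈ pars G r v, ∀ w ∈ pars G r v, g u v = g w v → u = w) ∧
    (∀ u, ∀ w ∈ pars G r u, ∀ v ∈ kids G r u, g w u ≠ g u v)

/-- The theorem for `H` itself (no light edges, one component). -/
def S_core : Prop := ∃ C : ℝ, 1 ≤ C ∧ ∀ (V : Type) [Fintype V] (H : SimpleGraph V)
  (L : Sym2 V → Finset ℕ) (d : ℕ),
  (∀ X : Finset V, X.Nonempty → ∃ v ∈ X, {w | w ∈ X ∧ H.Adj v w}.ncard ≤ d) →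
  (∀ u v, H.Adj u v → (H.neighborSet u).ncard ≤ (L s(u, v)).card ∧ C * d ≤ (L s(u, v)).card ∧
    C * Real.log ({w | ∃ x, H.Adj w x}.ncard) ≤ (L s(u, v)).card) →
  ListCol H L

/-- **The general theorem.** -/
def S_gen : Prop := ∃ C : ℝ, 1 ≤ C ∧ ∀ (V : Type) [Fintype V] (G : SimpleGraph V)
  (L : Sym2 V → Finset ℕ) (d : ℕ),
  (∀ X : Finset V, X.Nonempty → ∃ v ∈ X, {w | w ∈ X ∧ (heavyL G L).Adj v w}.ncard ≤ d) →
  (∀ u v, (heavyL G L).Adj u v → ((heavyL G L).neighborSet u).ncard ≤ (L s(u, v)).card ∧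
    C * d ≤ (L s(u, v)).card ∧
    C * Real.log ({w | (heavyL G L).Reachable u w}.ncard) ≤ (L s(u, v)).card) →
  ListCol G L

end Pool.Agent.H81.LE
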