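import Pool.Agent.H81.LE.Stm

/-!
# Project LE, local version
-/

namespace Pool.Agent.H81.LE

open Finset

/-- The graph of the heavy edges of `G`: those `u v` with `deg u + deg v ≥ D + 2`. -/
def heavy {V : Type} (G : SimpleGraph V) (D : ℕ) : SimpleGraph V where
  Adj u v := G.Adj u v ∧ D + 2 ≤ (G.neighborSet u).ncard + (G.neighborSet v).ncard
  symm := ⟨fun _ _ h => ⟨h.1.symm, by rw [add_comm (G.neighborSet _).ncard]; exact h.2⟩⟩
  loopless := ⟨fun _ h => G.loopless.irrefl _ h.1⟩

/-- The edges of `H` in the component of `v`. -/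
def part {V : Type} (H : SimpleGraph V) (v : V) : SimpleGraph V where
  Adj a b := H.Adj a b ∧ H.Reachable v a
  symm := ⟨fun _ _ h => ⟨h.1.symm, h.2.trans h.1.reachable⟩⟩
  loopless := ⟨fun _ h => H.loopless.irrefl _ h.1⟩

/-- **Light edges.**  Colour the heavy edges from their lists and then the other edges one after the
other: an edge `u v` with `deg u + deg v ≤ D + 1` meets at most `D - 1` other edges, so its list of at least
`D` colours contains a free one. (If `D = 0` all edges are heavy.) Induct on a finset of
edges (`e ∈ G.edgeSet`) already coloured which contains all heavy edges. -/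
def S_light : Prop := ∀ (V : Type) [Fintype V] (G : SimpleGraph V) (D : ℕ),
  EdgeChoosable (heavy G D) D → EdgeChoosable G D

/-- **Components.**  Take for every edge `e` the colouring of `part H v`, `v` a chosen
representative of the component of `e`; edges with a common vertex are in the same component. -/
def S_parts : Prop := ∀ (V : Type) [Fintype V] (H : SimpleGraph V) (D : ℕ),
  (∀ v, EdgeChoosable (part H v) D) → EdgeChoosable H D

/-- **The local form of the theorem.** -/
def S_local : Prop := ∃ C : ℝ, ∀ (V : Type) [Fintype V] (G : SimpleGraph V) (D d : ℕ),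
  (∀ v, (G.neighborSet v).ncard ≤ D) →
  (∀ X : Finset V, X.Nonempty → ∃ v ∈ X, {w | w ∈ X ∧ (heavy G D).Adj v w}.ncard ≤ d) →
  C * d ≤ D →
  (∀ v, C * Real.log ({w | (heavy G D).Reachable v w ∧
    D ≤ 2 * (G.neighborSet w).ncard}.ncard) ≤ D) →
  EdgeChoosable G D ∧ ((∃ v, (G.neighborSet v).ncard = D) →
    ∀ k : ℕ, G.lineGraph.Colorable k ↔ EdgeChoosable G k)

end Pool.Agent.H81.LE
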